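import Pool.Agent.TH539.SAThin
import Pool.Agent.TH539.AlgProgDim

set_option autoImplicit false

/-!
# Progressions in sets covered by semialgebraic or convex pieces
-/

open MeasureTheory Set Metric Filter Topology
open scoped NNReal ENNReal

namespace Pool.Agent.K3h53.SC

open Pool.Agent.TH539.SA (cover_vel lam_le cB cB_pos Vel)
open Pool.Agent.TH539.AlgProg (coverNum upperMinkowski)

/-- `ℝ^n` with its Euclidean norm. -/
abbrev E (n : ℕ) := EuclideanSpace ℝ (Fin n)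

/-- the constant -/
noncomputable def CC (n : ℕ) : ℝ := 4 ^ n * (n : ℝ) ^ n * cB n * (n + 1)

theorem CC_pos {n : ℕ} (hn : 1 ≤ n) : 0 < CC n := by
  have h1 := cB_pos n
  have h2 : (0 : ℝ) < n := by exact_mod_cast hn
  unfold CC
  positivity

theorem velocities {n : ℕ} (hn : 1 ≤ n) {N D : ℕ} {m : ℝ≥0∞} {A : Set (Fin n → ℝ)}
    (hA : Pool.Agent.TH539.SA.Cover N D m A) {R : Set (Fin n → ℝ)}
    (h : ∀ r ∈ R, ∃ a : Fin n → ℝ, ∀ j : ℕ, j < n + 1 → a + (j : ℝ) • r ∈ A) :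
    volume R ≤ ENNReal.ofReal (CC n) * ((N : ℝ≥0∞) ^ n * ((D : ℝ≥0∞) + 1) ^ (n ^ 2) * m) := by
  have ht : Function.Injective (fun i : Fin (n + 1) => ((i : ℕ) : ℝ)) := by
    intro i j hij
    have h0 : ((i : ℕ) : ℝ) = ((j : ℕ) : ℝ) := hij
    exact Fin.ext (by exact_mod_cast h0)
  have h1 := cover_vel hn N D (fun i : Fin (n + 1) => ((i : ℕ) : ℝ)) ht (fun _ => m) (fun _ => A)
    (fun _ => hA)
  have hsub : R ⊆ {v : Fin n → ℝ | ∃ q : Fin n → ℝ, ∀ i : Fin (n + 1),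
      q + ((i : ℕ) : ℝ) • v ∈ A} := by
    intro r hr
    obtain ⟨a, ha⟩ := h r hr
    exact ⟨a, fun i => ha i i.2⟩
  refine (measure_mono hsub).trans (h1.trans ?_)
  have hprod : ∀ i : Fin (n + 1), ∏ j : Fin n, (ENNReal.ofReal
      |(((i : ℕ) : ℝ)) - (((i.succAbove j : Fin (n + 1)) : ℕ) : ℝ)|)⁻¹ ≤ 1 := by
    intro i
    refine Finset.prod_le_one' fun j _ => ?_
    rw [ENNReal.inv_le_one, ← ENNReal.ofReal_one]
    apply ENNReal.ofReal_le_ofReal
    have hne : i.succAbove j ≠ i := Fin.succAbove_ne i j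
    have hne' : ((i : ℕ) : ℤ) - ((i.succAbove j : Fin (n + 1)) : ℕ) ≠ 0 := by
      intro h0
      apply hne
      apply Fin.ext
      omega
    have h2 : (1 : ℤ) ≤ |((i : ℕ) : ℤ) - ((i.succAbove j : Fin (n + 1)) : ℕ)| :=
      Int.one_le_abs hne'
    exact_mod_cast h2
  calc 4 ^ n * (n : ℝ≥0∞) ^ n * ((N : ℝ≥0∞) ^ n * (Pool.Agent.TH539.SA.lamB n D : ℝ≥0∞)) *
        ∑ i : Fin (n + 1), m * ∏ j : Fin n, (ENNReal.ofReal
          |(((i : ℕ) : ℝ)) - (((i.succAbove j : Fin (n + 1)) : ℕ) : ℝ)|)⁻¹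
      ≤ 4 ^ n * (n : ℝ≥0∞) ^ n * (ENNReal.ofReal (cB n) *
          ((N : ℝ≥0∞) ^ n * ((D : ℝ≥0∞) + 1) ^ (n ^ 2))) * ∑ _i : Fin (n + 1), m * 1 := by
        refine mul_le_mul' (mul_le_mul' le_rfl (lam_le n N D)) ?_
        exact Finset.sum_le_sum fun i _ => mul_le_mul' le_rfl (hprod i)
    _ = (4 ^ n * (n : ℝ≥0∞) ^ n * ENNReal.ofReal (cB n) * (n + 1)) *
          ((N : ℝ≥0∞) ^ n * ((D : ℝ≥0∞) + 1) ^ (n ^ 2) * m) := by
        rw [Finset.sum_const, Finset.card_univ, Fintype.card_fin, nsmul_eq_mul]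
        push_cast
        ring
    _ = _ := by
        congr 1
        unfold CC
        rw [ENNReal.ofReal_mul (by positivity), ENNReal.ofReal_mul (by positivity),
          ENNReal.ofReal_mul (by positivity), ENNReal.ofReal_pow (by norm_num),
          ENNReal.ofReal_pow (by positivity), ENNReal.ofReal_natCast]
        congr 1
        · rw [ENNReal.ofReal_natCast]
          congr 3
          norm_num
        · rw [ENNReal.ofReal_add (by positivity) (by norm_num), ENNReal.ofReal_natCast,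
            ENNReal.ofReal_one]

/-- `S ⊆ ℝ^n` is given by finitely many polynomial inequalities `P i > 0` and `Q j ≥ 0`, the total
degrees of the polynomials adding up to at most `D`. -/
def Basic {n : ℕ} (D : ℕ) (S : Set (E n)) : Prop :=
  ∃ (a b : ℕ) (P : Fin a → MvPolynomial (Fin n) ℝ) (Q : Fin b → MvPolynomial (Fin n) ℝ),
    ∑ i, (P i).totalDegree + ∑ j, (Q j).totalDegree ≤ D ∧
    S = {x | (∀ i, 0 < MvPolynomial.eval (fun l => x l) (P i)) ∧
      ∀ j, 0 ≤ MvPolynomial.eval (fun l => x l) (Q j)}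

/-- A piece of degree `D`: a convex set if `D = 0`, a basic semialgebraic set otherwise. -/
def Piece {n : ℕ} (D : ℕ) (S : Set (E n)) : Prop := if D = 0 then Convex ℝ S else Basic D S

/-- `A` is covered by `N` pieces of degree `D` of total volume at most `m`. -/
def Cover {n : ℕ} (N D : ℕ) (m : ℝ≥0∞) (A : Set (E n)) : Prop :=
  ∃ S : Fin N → Set (E n), (∀ j, Piece D (S j)) ∧ A ⊆ ⋃ j, S j ∧ ∑ j, volume (S j) ≤ m

/-- `B` contains a `k`-term progression with every common difference in `R`. -/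
def HasProg {n : ℕ} (k : ℕ) (R B : Set (E n)) : Prop :=
  ∀ r ∈ R, ∃ a : E n, ∀ j : ℕ, j < k → a + (j : ℝ) • r ∈ B

/-- coordinates -/
def crd {n : ℕ} (S : Set (E n)) : Set (Fin n → ℝ) := {v | (WithLp.toLp 2 v : E n) ∈ S}

theorem volume_crd {n : ℕ} (S : Set (E n)) : volume (crd S) = volume S := by
  have h := Pool.Agent.TH539.SA.volume_eucl (crd S)
  rw [← h]
  rfl

theorem piece_crd {n D : ℕ} {S : Set (E n)} (h : Piece D S) :
    Pool.Agent.TH539.SA.Piece D (crd S) := by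
  unfold Piece at h
  unfold Pool.Agent.TH539.SA.Piece
  split_ifs at h ⊢ with h0
  · exact h.linear_preimage ((WithLp.linearEquiv 2 ℝ (Fin n → ℝ)).symm : (Fin n → ℝ) →ₗ[ℝ] E n)
  · obtain ⟨a, b, P, Q, h1, rfl⟩ := h
    exact ⟨a, b, P, Q, h1, rfl⟩

theorem cover_crd {n N D : ℕ} {m : ℝ≥0∞} {A : Set (E n)} (h : Cover N D m A) :
    Pool.Agent.TH539.SA.Cover N D m (crd A) := by
  obtain ⟨S, h1, h2, h3⟩ := h
  refine ⟨fun j => crd (S j), fun j => piece_crd (h1 j), ?_, ?_⟩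
  · intro v hv
    have := h2 hv
    simpa [crd] using this
  · simpa only [volume_crd] using h3

theorem main_ineq {n : ℕ} (hn : 1 ≤ n) {R B : Set (E n)} {N D : ℕ} {m : ℝ≥0∞}
    (h : HasProg (n + 1) R B) (hc : Cover N D m B) :
    volume R ≤ ENNReal.ofReal (CC n) * ((N : ℝ≥0∞) ^ n * ((D : ℝ≥0∞) + 1) ^ (n ^ 2) * m) := by
  rw [← volume_crd R]
  refine velocities hn (cover_crd hc) ?_
  intro r hr
  obtain ⟨a, ha⟩ := h _ hr
  refine ⟨a.ofLp, fun j hj => ?_⟩
  exact ha j hj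

theorem main_ineq' {n : ℕ} (hn : 1 ≤ n) : ∃ c : ℝ, 0 < c ∧ ∀ (R B : Set (E n)) (N D : ℕ) (m : ℝ≥0∞),
    HasProg (n + 1) R B → Cover N D m B →
    ENNReal.ofReal c * volume R ≤ (N : ℝ≥0∞) ^ n * ((D : ℝ≥0∞) + 1) ^ (n ^ 2) * m := by
  have hC := CC_pos hn
  refine ⟨(CC n)⁻¹, by positivity, fun R B N D m h hc => ?_⟩
  have h1 := main_ineq hn h hc
  calc ENNReal.ofReal (CC n)⁻¹ * volume R
      ≤ ENNReal.ofReal (CC n)⁻¹ * (ENNReal.ofReal (CC n) *
        ((N : ℝ≥0∞) ^ n * ((D : ℝ≥0∞) + 1) ^ (n ^ 2) * m)) := by gcongr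
    _ = _ := by
        rw [← mul_assoc, ← ENNReal.ofReal_mul (by positivity), inv_mul_cancel₀ hC.ne',
          ENNReal.ofReal_one, one_mul]

/-! ### Minkowski dimension -/

/-- lower bounds of the covering numbers at infinitely many scales -/
theorem le_dim_freq {n : ℕ} {B : Set (E n)} {s κ : ℝ} (hκ : 0 < κ)
    (hcount : ∃ᶠ δ : ℝ in 𝓝[>] 0, κ * δ ^ (-s) ≤ (coverNum B δ : ℝ)) :
    (s : EReal) ≤ upperMinkowski B := by
  refine le_of_forall_lt fun x hx => ?_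
  obtain ⟨y, hxy, hy⟩ := EReal.lt_iff_exists_real_btwn.mp hx
  refine lt_of_lt_of_le hxy ?_
  have hy' : y < s := by exact_mod_cast hy
  set ε := s - y with hε
  have hεpos : 0 < ε := by rw [hε]; linarith
  have hlog : Tendsto Real.log (𝓝[>] 0) atBot := Real.tendsto_log_nhdsGT_zero
  have h1 : ∀ᶠ δ : ℝ in 𝓝[>] (0 : ℝ), Real.log δ < -(|Real.log κ| / ε + 1) :=
    hlog.eventually (eventually_lt_atBot _)
  have hsmall : ∀ᶠ δ : ℝ in 𝓝[>] (0 : ℝ), 0 < δ ∧ δ < 1 := Ioo_mem_nhdsGT one_pos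
  refine le_limsup_of_frequently_le ((hcount.and_eventually (h1.and hsmall)).mono ?_)
    (by isBoundedDefault)
  rintro δ ⟨hc, h1, h2⟩
  have habs : 0 ≤ |Real.log κ| / ε := by positivity
  have hneg : Real.log δ < 0 := by linarith
  rw [EReal.coe_le_coe_iff, one_div, Real.log_inv, le_div_iff₀ (by linarith)]
  have hpos : 0 < κ * δ ^ (-s) := by
    have := h2.1
    positivity
  have h5 := Real.log_le_log hpos hc
  rw [Real.log_mul hκ.ne' (by have := h2.1; positivity), Real.log_rpow h2.1] at h5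
  have h6 : ε * Real.log δ ≤ Real.log κ := by
    have h7 : |Real.log κ| / ε < -Real.log δ := by linarith
    rw [div_lt_iff₀ hεpos] at h7
    have := neg_abs_le (Real.log κ)
    nlinarith
  have h8 : y * -Real.log δ = -s * Real.log δ + ε * Real.log δ := by rw [hε]; ring
  rw [h8]
  linarith

/-- the volume of a neighbourhood in terms of the covering number -/
theorem volume_thickening_le {n : ℕ} {B : Set (E n)} (hB : Bornology.IsBounded B) {δ : ℝ}
    (hδ : 0 < δ) : volume (thickening δ B) ≤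
      (coverNum B δ : ℝ≥0∞) * (ENNReal.ofReal ((2 * δ) ^ n) * volume (ball (0 : E n) 1)) := by
  classical
  obtain ⟨U, hU, hBU⟩ := Nat.sInf_mem (Pool.Agent.TH539.AlgProg.cover_nonempty hB hδ)
  change B ⊆ ⋃ i : Fin (coverNum B δ), U i at hBU
  have hex : ∀ i : Fin (coverNum B δ), ∃ x : E n, thickening δ (U i) ⊆ ball x (2 * δ) := by
    intro i
    rcases (U i).eq_empty_or_nonempty with h | ⟨x, hx⟩
    · exact ⟨0, by rw [h, thickening_empty]; exact empty_subset _⟩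
    · refine ⟨x, fun y hy => ?_⟩
      obtain ⟨z, hz, hyz⟩ := mem_thickening_iff.1 hy
      have h1 : dist z x ≤ δ := hU i z hz x hx
      rw [mem_ball]
      have := dist_triangle y z x
      linarith
  choose x hx using hex
  have hsub : thickening δ B ⊆ ⋃ i : Fin (coverNum B δ), ball (x i) (2 * δ) := by
    intro y hy
    obtain ⟨z, hz, hyz⟩ := mem_thickening_iff.1 hy
    obtain ⟨i, hi⟩ := mem_iUnion.1 (hBU hz)
    exact mem_iUnion.2 ⟨i, hx i (mem_thickening_iff.2 ⟨z, hi, hyz⟩)⟩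
  calc volume (thickening δ B) ≤ volume (⋃ i : Fin (coverNum B δ), ball (x i) (2 * δ)) :=
        measure_mono hsub
    _ ≤ ∑ i : Fin (coverNum B δ), volume (ball (x i) (2 * δ)) := measure_iUnion_fintype_le _ _
    _ = ∑ _i : Fin (coverNum B δ), (ENNReal.ofReal ((2 * δ) ^ n) * volume (ball (0 : E n) 1)) := by
        refine Finset.sum_congr rfl fun i _ => ?_
        have := Measure.addHaar_ball_of_pos (volume : Measure (E n)) (x i) (r := 2 * δ)
          (by positivity)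
        rw [this, finrank_euclideanSpace_fin]
    _ = _ := by
        rw [Finset.sum_const, Finset.card_univ, Fintype.card_fin, nsmul_eq_mul]

/-- At arbitrarily small scales `δ` the set `B` is covered by at most `δ ^ (-γ)` pieces of degree at most
`δ ^ (-γ)`, of total volume at most `δ ^ (-γ)` times the volume of the `δ`-neighbourhood of `B`. -/
def Tame {n : ℕ} (γ : ℝ) (B : Set (E n)) : Prop :=
  ∃ᶠ δ : ℝ in 𝓝[>] 0, ∃ N D : ℕ, (N : ℝ) ≤ δ ^ (-γ) ∧ (D : ℝ) ≤ δ ^ (-γ) ∧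
    Cover N D (ENNReal.ofReal (δ ^ (-γ)) * volume (thickening δ B)) B

theorem mink {n : ℕ} (hn : 1 ≤ n) {R B : Set (E n)} (hB : Bornology.IsBounded B)
    (hR : volume R ≠ 0) (h : HasProg (n + 1) R B) {γ : ℝ} (hγ : 0 ≤ γ) (hT : Tame γ B) :
    (((n : ℝ) - ((n : ℝ) ^ 2 + n + 1) * γ : ℝ) : EReal) ≤ upperMinkowski B := by
  obtain ⟨c, hc, hmain⟩ := main_ineq' hn
  -- a real lower bound for the measure of `R`
  obtain ⟨ρ, hρ, hρR⟩ : ∃ ρ : ℝ, 0 < ρ ∧ ENNReal.ofReal ρ ≤ volume R := by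
    rcases eq_or_ne (volume R) ⊤ with h | h
    · exact ⟨1, one_pos, by rw [h]; exact le_top⟩
    · refine ⟨(volume R).toReal, ENNReal.toReal_pos hR h, ?_⟩
      rw [ENNReal.ofReal_toReal h]
  set ω : ℝ := (volume (ball (0 : E n) 1)).toReal with hω
  have hωt : volume (ball (0 : E n) 1) ≠ ⊤ := measure_ball_lt_top.ne
  have hω0 : 0 < ω := ENNReal.toReal_pos (measure_ball_pos volume _ one_pos).ne' hωt
  set κ : ℝ := c * ρ / (2 ^ (n ^ 2) * 2 ^ n * ω) with hκ
  have hκ0 : 0 < κ := by positivity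
  refine le_dim_freq hκ0 ?_
  have hsmall : ∀ᶠ δ : ℝ in 𝓝[>] (0 : ℝ), 0 < δ ∧ δ < 1 := Ioo_mem_nhdsGT one_pos
  refine (hT.and_eventually hsmall).mono ?_
  rintro δ ⟨⟨N, D, hN, hD, hcov⟩, hδ, hδ1⟩
  have hq1 : 1 ≤ δ ^ (-γ) := Real.one_le_rpow_of_pos_of_le_one_of_nonpos hδ hδ1.le (by linarith)
  have hq0 : 0 < δ ^ (-γ) := by linarith
  have h1 := hmain R B N D _ h hcov
  have h2 : ENNReal.ofReal (c * ρ) ≤ ENNReal.ofReal ((δ ^ (-γ)) ^ n * (2 * δ ^ (-γ)) ^ (n ^ 2) *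
      (δ ^ (-γ) * (coverNum B δ * ((2 * δ) ^ n * ω)))) := by
    calc ENNReal.ofReal (c * ρ) = ENNReal.ofReal c * ENNReal.ofReal ρ :=
          ENNReal.ofReal_mul hc.le
      _ ≤ ENNReal.ofReal c * volume R := by gcongr
      _ ≤ _ := h1
      _ ≤ ENNReal.ofReal (δ ^ (-γ)) ^ n * ENNReal.ofReal (2 * δ ^ (-γ)) ^ (n ^ 2) *
          (ENNReal.ofReal (δ ^ (-γ)) * ((coverNum B δ : ℝ≥0∞) *
            (ENNReal.ofReal ((2 * δ) ^ n) * volume (ball (0 : E n) 1)))) := by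
          gcongr
          · rw [← ENNReal.ofReal_natCast]
            exact ENNReal.ofReal_le_ofReal hN
          · have : ((D : ℝ≥0∞) + 1) = ENNReal.ofReal (D + 1) := by
              rw [ENNReal.ofReal_add (by positivity) (by norm_num), ENNReal.ofReal_natCast,
                ENNReal.ofReal_one]
            rw [this]
            apply ENNReal.ofReal_le_ofReal
            linarith
          · exact volume_thickening_le hB hδ
      _ = _ := by
          have e1 : volume (ball (0 : E n) 1) = ENNReal.ofReal ω := by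
            rw [hω, ENNReal.ofReal_toReal hωt]
          rw [e1, ENNReal.ofReal_mul (p := (δ ^ (-γ)) ^ n * (2 * δ ^ (-γ)) ^ (n ^ 2))
            (by positivity), ENNReal.ofReal_mul (p := (δ ^ (-γ)) ^ n) (by positivity),
            ENNReal.ofReal_mul (p := δ ^ (-γ)) (q := coverNum B δ * ((2 * δ) ^ n * ω))
            (by positivity), ENNReal.ofReal_mul (p := (coverNum B δ : ℝ)) (by positivity),
            ENNReal.ofReal_mul (p := (2 * δ) ^ n) (by positivity),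
            ENNReal.ofReal_pow hq0.le, ENNReal.ofReal_pow (by positivity : (0:ℝ) ≤ 2 * δ ^ (-γ)),
            ENNReal.ofReal_natCast]
  have h3 := (ENNReal.ofReal_le_ofReal_iff (by positivity)).1 h2
  -- exponents
  have e2 : (δ ^ (-γ)) ^ n * (2 * δ ^ (-γ)) ^ (n ^ 2) *
      (δ ^ (-γ) * (coverNum B δ * ((2 * δ) ^ n * ω))) =
      (2 ^ (n ^ 2) * 2 ^ n * ω) * (coverNum B δ * ((δ ^ (-γ)) ^ (n ^ 2 + n + 1) * δ ^ n)) := by
    rw [mul_pow, mul_pow]
    ring
  rw [e2] at h3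
  have e3 : (δ ^ (-γ)) ^ (n ^ 2 + n + 1) * δ ^ n =
      (δ ^ (-((n : ℝ) - ((n : ℝ) ^ 2 + n + 1) * γ)))⁻¹ := by
    rw [← Real.rpow_natCast, ← Real.rpow_mul hδ.le, ← Real.rpow_natCast δ n, ← Real.rpow_add hδ,
      ← Real.rpow_neg hδ.le]
    congr 1
    push_cast
    ring
  rw [e3] at h3
  have hpos : 0 < δ ^ (-((n : ℝ) - ((n : ℝ) ^ 2 + n + 1) * γ)) := Real.rpow_pos_of_pos hδ _
  rw [hκ, div_mul_eq_mul_div, div_le_iff₀ (by positivity)]
  have h4 := mul_le_mul_of_nonneg_right h3 hpos.le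
  calc c * ρ * δ ^ (-((n : ℝ) - ((n : ℝ) ^ 2 + n + 1) * γ)) ≤ _ := h4
    _ = _ := by
        field_simp

end Pool.Agent.K3h53.SC
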