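import Pool.Agent.K3h53.SC.Core
import Pool.Agent.TH539.AlgProgUpper
import Pool.Agent.R462.HP.Sharp

set_option autoImplicit false

/-!
# Progressions in countable unions of semialgebraic sets and of convex sets
-/

open MeasureTheory Set Metric Filter Topology
open scoped NNReal ENNReal MeasureTheory

namespace Pool.Agent.K3h53.SC

open Pool.Agent.TH539.AlgProg (DimLE ZDense SemiR semi_proj exists_ball not_dimLE)

/-- Semialgebraic sets: membership of `x` depends only on the signs of finitely many polynomials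
at `x`. -/
def Semialgebraic {n : ℕ} (S : Set (E n)) : Prop :=
  ∃ Q : Finset (MvPolynomial (Fin n) ℝ), ∀ x y : E n,
    (∀ q ∈ Q, SignType.sign (MvPolynomial.eval (fun i => x i) q) =
      SignType.sign (MvPolynomial.eval (fun i => y i) q)) → x ∈ S → y ∈ S

theorem semi_crd {n : ℕ} {S : Set (E n)} (h : Semialgebraic S) : SemiR (crd S) := by
  obtain ⟨Q, hQ⟩ := h
  exact ⟨Q, fun x y hxy hx => hQ (WithLp.toLp 2 x) (WithLp.toLp 2 y) hxy hx⟩

/-- convex Zariski dense sets contain a ball -/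
theorem convex_ball {e : ℕ} {W : Set (Fin e → ℝ)} (hW : Convex ℝ W) (hd : ZDense W) :
    ∃ (w : Fin e → ℝ) (ρ : ℝ), 0 < ρ ∧ closedBall w ρ ⊆ W := by
  classical
  have hne : W.Nonempty := by
    by_contra hno
    rw [not_nonempty_iff_eq_empty] at hno
    have := hd 1 (by rw [hno]; intro r hr; exact absurd hr (notMem_empty r))
    exact one_ne_zero this
  obtain ⟨p, hp⟩ := hne
  by_cases hint : (interior W).Nonempty
  · obtain ⟨w, hw⟩ := hint
    obtain ⟨ρ, hρ, hball⟩ := nhds_basis_closedBall.mem_iff.1 (mem_interior_iff_mem_nhds.1 hw)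
    exact ⟨w, ρ, hρ, hball⟩
  exfalso
  rw [hW.interior_nonempty_iff_affineSpan_eq_top] at hint
  have hdir : (affineSpan ℝ W).direction < ⊤ := by
    refine lt_top_iff_ne_top.2 fun h => hint ?_
    exact (AffineSubspace.direction_eq_top_iff_of_nonempty
      ⟨p, subset_affineSpan ℝ W hp⟩).1 h
  obtain ⟨f, hf0, hf⟩ := Submodule.exists_le_ker_of_lt_top _ hdir
  set P : MvPolynomial (Fin e) ℝ := ∑ l, MvPolynomial.C (f (Pi.single l 1)) * MvPolynomial.X l -
    MvPolynomial.C (f p) with hP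
  have heval : ∀ x, MvPolynomial.eval x P = f x - f p := by
    intro x
    have h1 : f x = ∑ l, f (Pi.single l 1) * x l := by
      conv_lhs => rw [LinearMap.pi_apply_eq_sum_univ f x]
      refine Finset.sum_congr rfl fun l _ => ?_
      rw [smul_eq_mul, mul_comm]
      congr 2
      ext k
      simp [Pi.single_apply, eq_comm]
    rw [hP, h1]
    simp
  have hP0 : P = 0 := by
    refine hd P fun x hx => ?_
    rw [heval]
    have h1 : x - p ∈ (affineSpan ℝ W).direction := by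
      have := AffineSubspace.vsub_mem_direction (subset_affineSpan ℝ W hx)
        (subset_affineSpan ℝ W hp)
      simpa using this
    have h2 := hf h1
    rw [LinearMap.mem_ker, map_sub] at h2
    exact h2
  apply hf0
  refine LinearMap.ext fun x => ?_
  have h1 := heval (x + p)
  rw [hP0, map_zero, map_add] at h1
  have : f x = 0 := by linarith
  simpa using this

theorem ball_of_not_dimLE {n d : ℕ} {S : Set (E n)} (hS : Convex ℝ S ∨ Semialgebraic S)
    (h : ¬ DimLE d (crd S)) : ∃ (σ : Fin (d + 1) → Fin n) (w : Fin (d + 1) → ℝ) (ρ : ℝ), 0 < ρ ∧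
      closedBall w ρ ⊆ {y : Fin (d + 1) → ℝ | ∃ x ∈ crd S, ∀ i, x (σ i) = y i} := by
  obtain ⟨σ, hσ⟩ := not_dimLE h
  rcases hS with hS | hS
  · have hconv : Convex ℝ {y : Fin (d + 1) → ℝ | ∃ x ∈ crd S, ∀ i, x (σ i) = y i} := by
      have h1 : Convex ℝ (crd S) :=
        hS.linear_preimage ((WithLp.linearEquiv 2 ℝ (Fin n → ℝ)).symm : (Fin n → ℝ) →ₗ[ℝ] E n)
      have h2 := h1.linear_image (LinearMap.funLeft ℝ ℝ σ)
      have e : {y : Fin (d + 1) → ℝ | ∃ x ∈ crd S, ∀ i, x (σ i) = y i} =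
          (LinearMap.funLeft ℝ ℝ σ) '' (crd S) := by
        apply Set.ext
        intro y
        constructor
        · rintro ⟨x, hx, hxy⟩
          exact ⟨x, hx, funext hxy⟩
        · rintro ⟨x, hx, rfl⟩
          exact ⟨x, hx, fun i => rfl⟩
      rw [e]
      exact h2
    obtain ⟨w, ρ, hρ, hb⟩ := convex_ball hconv hσ
    exact ⟨σ, w, ρ, hρ, hb⟩
  · obtain ⟨w, ρ, hρ, hb⟩ := exists_ball (semi_proj (semi_crd hS) σ) hσ
    exact ⟨σ, w, ρ, hρ, hb⟩

theorem hausdorff_ne_zero {n d : ℕ} {S : Set (E n)} (hS : Convex ℝ S ∨ Semialgebraic S)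
    (h : ¬ DimLE d (crd S)) : μH[((d + 1 : ℕ) : ℝ)] S ≠ 0 := by
  obtain ⟨σ, w, ρ, hρ, hb⟩ := ball_of_not_dimLE hS h
  let P : E n → (Fin (d + 1) → ℝ) := fun x i => x (σ i)
  have hP : LipschitzWith 1 P := by
    apply LipschitzWith.of_dist_le_mul
    intro x y
    rw [NNReal.coe_one, one_mul, dist_pi_le_iff dist_nonneg]
    intro j
    rw [dist_eq_norm, dist_eq_norm]
    exact PiLp.norm_apply_le (x - y) (σ j)
  intro h0
  have h2 := hP.hausdorffMeasure_image_le (d := ((d + 1 : ℕ) : ℝ)) (by positivity) S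
  rw [h0, mul_zero] at h2
  have h3 : (Measure.hausdorffMeasure ((Fintype.card (Fin (d + 1)) : ℕ) : ℝ) :
    Measure (Fin (d + 1) → ℝ)) = volume := hausdorffMeasure_pi_real
  rw [Fintype.card_fin] at h3
  rw [h3] at h2
  have h4 : closedBall w ρ ⊆ P '' S := by
    intro y hy
    obtain ⟨x, hx, hxy⟩ := hb hy
    exact ⟨WithLp.toLp 2 x, hx, funext hxy⟩
  have h5 := (measure_mono h4).trans h2
  exact (measure_closedBall_pos volume w hρ).ne' (le_antisymm h5 zero_le)

/-- `B` is a countable union of convex sets and of semialgebraic sets. -/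
def CUnion {n : ℕ} (B : Set (E n)) : Prop :=
  ∃ S : ℕ → Set (E n), (∀ j, Convex ℝ (S j) ∨ Semialgebraic (S j)) ∧ B = ⋃ j, S j

theorem countable_lower {n k : ℕ} (hk : 1 ≤ k) {B : Set (E n)} (hB : CUnion B) {R : Set (E n)}
    (hR : volume R ≠ 0) (h : HasProg k R B) : μH[((n - n / k : ℕ) : ℝ)] B ≠ 0 := by
  classical
  obtain ⟨S, hS, rfl⟩ := hB
  intro h0
  rcases Nat.eq_zero_or_pos (n - n / k) with hq | hq
  · rw [hq, Nat.cast_zero] at h0
    obtain ⟨r, hr⟩ : R.Nonempty := by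
      rw [nonempty_iff_ne_empty]
      rintro rfl
      exact hR measure_empty
    obtain ⟨a, ha⟩ := h r hr
    have h1 : (Measure.hausdorffMeasure (0 : ℝ) : Measure (E n)) {a + ((0 : ℕ) : ℝ) • r} = 0 :=
      measure_mono_null (by
        rw [Set.singleton_subset_iff]
        exact ha 0 (by omega)) h0
    rw [Measure.hausdorffMeasure_zero_singleton] at h1
    exact one_ne_zero h1
  · set d : ℕ := n - n / k - 1 with hd
    have hd1 : d + 1 = n - n / k := by omega
    have hdim : ∀ j, DimLE d (crd (S j)) := by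
      intro j
      by_contra hcon
      apply hausdorff_ne_zero (hS j) hcon
      rw [hd1]
      exact measure_mono_null (subset_iUnion S j) h0
    -- one sequence of pieces serves a set of positive measure
    have hcov : crd R ⊆ ⋃ f : Fin k → ℕ, {r | r ∈ crd R ∧ ∃ a : Fin n → ℝ, ∀ j : Fin k,
        a + ((j : ℕ) : ℝ) • r ∈ crd (S (f j))} := by
      intro r hr
      obtain ⟨a, ha⟩ := h _ hr
      have h1 : ∀ j : Fin k, ∃ l : ℕ, a + ((j : ℕ) : ℝ) • (WithLp.toLp 2 r : E n) ∈ S l :=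
        fun j => mem_iUnion.1 (ha j j.2)
      choose f hf using h1
      exact mem_iUnion.2 ⟨f, hr, a.ofLp, fun j => hf j⟩
    have hpos : ∃ f : Fin k → ℕ, volume {r | r ∈ crd R ∧ ∃ a : Fin n → ℝ, ∀ j : Fin k,
        a + ((j : ℕ) : ℝ) • r ∈ crd (S (f j))} ≠ 0 := by
      by_contra hcon
      push Not at hcon
      apply hR
      rw [← volume_crd]
      exact measure_mono_null hcov (measure_iUnion_null hcon)
    obtain ⟨f, hf⟩ := hpos
    have hden : ZDense {r | r ∈ crd R ∧ ∃ a : Fin n → ℝ, ∀ j : Fin k,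
        a + ((j : ℕ) : ℝ) • r ∈ crd (S (f j))} := by
      intro p hp
      by_contra hp0
      exact hf (measure_mono_null (fun r hr => hp r hr)
        (Pool.Agent.H810R3.Tub.zero_null n p hp0))
    have h1 := Pool.Agent.TH539.AlgProg.lower (n := n)
      ((Finset.range k).map ⟨fun j : ℕ => (j : ℝ), Nat.cast_injective⟩)
      (fun _ => d) (fun t => if ht : ⌊t⌋₊ < k then crd (S (f ⟨⌊t⌋₊, ht⟩)) else ∅)
      (fun t ht => by
        obtain ⟨j, hj, rfl⟩ := Finset.mem_map.1 ht
        have hj' : ⌊((⟨fun j : ℕ => (j : ℝ), Nat.cast_injective⟩ : ℕ ↪ ℝ) j)⌋₊ < k := by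
          change ⌊(j : ℝ)⌋₊ < k
          rw [Nat.floor_natCast]
          exact Finset.mem_range.1 hj
        rw [dif_pos hj']
        exact hdim _) hden (by
        rintro r ⟨-, a, ha⟩
        refine ⟨a, fun t ht => ?_⟩
        obtain ⟨j, hj, rfl⟩ := Finset.mem_map.1 ht
        have e : ⌊((⟨fun j : ℕ => (j : ℝ), Nat.cast_injective⟩ : ℕ ↪ ℝ) j)⌋₊ = j := by
          change ⌊(j : ℝ)⌋₊ = j
          rw [Nat.floor_natCast]
        have hj' : ⌊((⟨fun j : ℕ => (j : ℝ), Nat.cast_injective⟩ : ℕ ↪ ℝ) j)⌋₊ < k := by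
          rw [e]
          exact Finset.mem_range.1 hj
        rw [dif_pos hj']
        have h2 := ha ⟨j, Finset.mem_range.1 hj⟩
        have e2 : (⟨⌊((⟨fun j : ℕ => (j : ℝ), Nat.cast_injective⟩ : ℕ ↪ ℝ) j)⌋₊, hj'⟩ : Fin k) =
            ⟨j, Finset.mem_range.1 hj⟩ := Fin.ext e
        rw [e2]
        exact h2)
    rw [Finset.sum_const, Finset.card_map, Finset.card_range, smul_eq_mul] at h1
    have h2 : n - d = n / k + 1 := by
      have h3 := Nat.div_le_self n k
      generalize n / k = q at h3 hd1 hq ⊢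
      omega
    rw [h2] at h1
    have h3 := Nat.lt_mul_div_succ n (show 0 < k by omega)
    omega

/-- the cube `[0,1]^n` -/
def cube (n : ℕ) : Set (E n) := {r | ∀ i, r i ∈ Set.Icc (0 : ℝ) 1}

theorem volume_cube (n : ℕ) : volume (cube n) ≠ 0 := by
  have h := Pool.Agent.R462.HP.open_cube n
  have h1 : (0 : ℝ≥0∞) < volume {r : E n | ∀ i, r i ∈ Set.Ioo (0 : ℝ) 1} := by
    refine h.measure_pos volume ⟨WithLp.toLp 2 (fun _ => 1 / 2), fun i => ?_⟩
    constructor
    · change (0 : ℝ) < 1 / 2; norm_num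
    · change (1 / 2 : ℝ) < 1; norm_num
  refine (h1.trans_le (measure_mono ?_)).ne'
  exact fun r hr i => ⟨(hr i).1.le, (hr i).2.le⟩

theorem exists_example {n k : ℕ} (hk : 1 ≤ k) :
    ∃ B : Set (E n), Bornology.IsBounded B ∧ CUnion B ∧ HasProg k (cube n) B ∧
      Pool.Agent.TH539.AlgProg.upperMinkowski B ≤ (((n - n / k : ℕ) : ℝ) : EReal) := by
  obtain ⟨B, h1, h2, h3, h4⟩ := Pool.Agent.TH539.AlgProg.upper (n := n) hk
  exact ⟨B, h1, ⟨fun _ => B, fun _ => Or.inr h2, (iUnion_const B).symm⟩, h3, h4⟩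

end Pool.Agent.K3h53.SC
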